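import Pool.Agent.Y496.CW.Sp

/-!
# Coefficients of products of integer polynomials; rank factorization (job W9 of helper648)
-/

set_option autoImplicit false

namespace Pool.Agent.Y496.CW

open Finset

variable {k : ℕ}

theorem supp_card {s : ℕ} (p : MvPolynomial (Fin k) ℤ) (h : ∀ r, p.degreeOf r ≤ s) :
    p.support.card ≤ (s + 1) ^ k := by
  classical
  calc p.support.card ≤ (Fintype.piFinset (fun _ : Fin k => Finset.range (s + 1))).card := by
        refine card_le_card_of_injOn (fun e => (e : Fin k → ℕ)) (fun e he => ?_) ?_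
        · rw [Finset.mem_coe, Fintype.mem_piFinset]
          intro r
          rw [Finset.mem_range]
          have := (MvPolynomial.monomial_le_degreeOf r he).trans (h r)
          show e r < s + 1
          omega
        · intro e _ e' _ h1
          exact DFunLike.coe_injective h1
    _ = (s + 1) ^ k := by simp

theorem coeff_mul_bd (p q : MvPolynomial (Fin k) ℤ) {c c' : ℤ} (hc : ∀ e, |p.coeff e| ≤ c)
    (hc' : ∀ e, |q.coeff e| ≤ c') (e : Fin k →₀ ℕ) :
    |(p * q).coeff e| ≤ p.support.card * (c * c') := by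
  classical
  rw [MvPolynomial.coeff_mul]
  have h0 : 0 ≤ c := (abs_nonneg _).trans (hc 0)
  have h0' : 0 ≤ c' := (abs_nonneg _).trans (hc' 0)
  have hcc : 0 ≤ c * c' := mul_nonneg h0 h0'
  have h1 : ∑ x ∈ antidiagonal e, p.coeff x.1 * q.coeff x.2 =
      ∑ x ∈ (antidiagonal e).filter (fun x => x.1 ∈ p.support), p.coeff x.1 * q.coeff x.2 := by
    refine (sum_filter_of_ne fun x _ hx => ?_).symm
    rw [MvPolynomial.mem_support_iff]
    intro h2
    exact hx (by rw [h2, zero_mul])
  rw [h1]
  calc |∑ x ∈ (antidiagonal e).filter (fun x => x.1 ∈ p.support), p.coeff x.1 * q.coeff x.2|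
      ≤ ∑ x ∈ (antidiagonal e).filter (fun x => x.1 ∈ p.support), |p.coeff x.1 * q.coeff x.2| :=
        abs_sum_le_sum_abs _ _
    _ ≤ ∑ x ∈ (antidiagonal e).filter (fun x => x.1 ∈ p.support), c * c' := by
        refine sum_le_sum fun x _ => ?_
        rw [abs_mul]
        exact mul_le_mul (hc _) (hc' _) (abs_nonneg _) h0
    _ = ((antidiagonal e).filter (fun x => x.1 ∈ p.support)).card * (c * c') := by
        rw [sum_const, nsmul_eq_mul]
    _ ≤ p.support.card * (c * c') := by
        refine mul_le_mul_of_nonneg_right ?_ hcc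
        have h2 : ((antidiagonal e).filter (fun x => x.1 ∈ p.support)).card ≤ p.support.card := by
          refine card_le_card_of_injOn Prod.fst (fun x hx => ?_) ?_
          · exact (mem_filter.1 hx).2
          · rintro ⟨a, b⟩ hx ⟨a', b'⟩ hx' h3
            have e1 := mem_antidiagonal.1 (mem_filter.1 hx).1
            have e2 := mem_antidiagonal.1 (mem_filter.1 hx').1
            simp only at h3 e1 e2
            subst h3
            rw [← e2] at e1
            rw [add_left_cancel e1]
        exact_mod_cast h2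

/-- products of small polynomials -/
theorem prod_bd {ι : Type} {s : ℕ} {c : ℤ} (hc1 : 1 ≤ c) (P : ι → MvPolynomial (Fin k) ℤ)
    (hd : ∀ i r, (P i).degreeOf r ≤ s) (hc : ∀ i e, |(P i).coeff e| ≤ c) (T : Finset ι) :
    (∀ r, (∏ i ∈ T, P i).degreeOf r ≤ T.card * s) ∧
      ∀ e, |(∏ i ∈ T, P i).coeff e| ≤ ((s + 1) ^ k * c) ^ T.card := by
  classical
  induction T using Finset.induction_on with
  | empty =>
    refine ⟨fun r => ?_, fun e => ?_⟩
    · simp [MvPolynomial.degreeOf_one]
    · rw [prod_empty, card_empty, pow_zero, MvPolynomial.coeff_one]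
      split_ifs <;> simp
  | insert i T hi ih =>
    obtain ⟨ih1, ih2⟩ := ih
    rw [prod_insert hi, card_insert_of_notMem hi]
    refine ⟨fun r => ?_, fun e => ?_⟩
    · refine (MvPolynomial.degreeOf_mul_le r _ _).trans ?_
      have h1 := hd i r
      have h2 := ih1 r
      calc _ ≤ s + T.card * s := add_le_add h1 h2
        _ = (T.card + 1) * s := by ring
    · refine (coeff_mul_bd (P i) _ (hc i) ih2 e).trans ?_
      have h1 : ((P i).support.card : ℤ) ≤ (s + 1) ^ k := by exact_mod_cast supp_card (P i) (hd i)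
      have h2 : 0 ≤ c * (((s : ℤ) + 1) ^ k * c) ^ T.card := by positivity
      calc ((P i).support.card : ℤ) * (c * (((s : ℤ) + 1) ^ k * c) ^ T.card)
          ≤ (s + 1) ^ k * (c * (((s : ℤ) + 1) ^ k * c) ^ T.card) := mul_le_mul_of_nonneg_right h1 h2
        _ = (((s : ℤ) + 1) ^ k * c) ^ (T.card + 1) := by ring

/-- the value of an integer polynomial -/
theorem LC.aeval {D : ℕ} {c : ℤ} (θ : Fin k → ℝ) (p : MvPolynomial (Fin k) ℤ)
    (hd : ∀ r, p.degreeOf r ≤ D) (hc : ∀ e, |p.coeff e| ≤ c) :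
    LC (fun e : Fin k → Fin (D + 1) => ∏ v, θ v ^ (e v : ℕ)) c (MvPolynomial.aeval θ p) := by
  classical
  set j : (Fin k → Fin (D + 1)) → (Fin k →₀ ℕ) := fun e => Finsupp.equivFunOnFinite.symm fun v => (e v : ℕ)
    with hj
  have hjv : ∀ e v, j e v = (e v : ℕ) := fun e v => rfl
  have hinj : Function.Injective j := by
    intro e e' h
    funext v
    apply Fin.ext
    have := DFunLike.congr_fun h v
    rwa [hjv, hjv] at this
  refine ⟨fun e => p.coeff (j e), fun e => hc _, ?_⟩
  have h1 : MvPolynomial.aeval θ p = ∑ d ∈ p.support, ((p.coeff d : ℤ) : ℝ) * ∏ i, θ i ^ d i := by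
    rw [MvPolynomial.aeval_def, MvPolynomial.eval₂_eq']
    rfl
  rw [h1]
  have h2 : ∑ e : Fin k → Fin (D + 1), ((p.coeff (j e) : ℤ) : ℝ) * ∏ v, θ v ^ (e v : ℕ) =
      ∑ d ∈ univ.image j, ((p.coeff d : ℤ) : ℝ) * ∏ i, θ i ^ d i := by
    rw [sum_image fun e _ e' _ h => hinj h]
    rfl
  rw [h2]
  refine sum_subset (fun d hd' => ?_) fun d _ hd' => ?_
  · rw [mem_image]
    refine ⟨fun v => ⟨d v, ?_⟩, mem_univ _, ?_⟩
    · have := (MvPolynomial.monomial_le_degreeOf v hd').trans (hd v)
      omega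
    · ext v
      rw [hjv]
  · rw [MvPolynomial.notMem_support_iff.1 hd']
    simp

/-- rank factorization -/
theorem rank_fac {m n : ℕ} (R : Matrix (Fin m) (Fin n) ℝ) (h : R.rank ≤ k) :
    ∃ (U : Fin m → Fin k → ℝ) (V : Fin k → Fin n → ℝ), ∀ i j, R i j = ∑ a, U i a * V a j := by
  classical
  set S : Submodule ℝ (Fin m → ℝ) := LinearMap.range R.mulVecLin with hS
  have hfin : Module.finrank ℝ S = R.rank := rfl
  set b := Module.finBasis ℝ S with hb
  have hmem : ∀ j, (fun i => R i j) ∈ S := by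
    intro j
    refine ⟨Pi.single j 1, ?_⟩
    funext i
    simp [Matrix.mulVecLin_apply, Matrix.mulVec_single_one]
  have hle : Module.finrank ℝ S ≤ k := by rw [hfin]; exact h
  refine ⟨fun i a => if ha : (a : ℕ) < Module.finrank ℝ S then ((b ⟨a, ha⟩ : S) : Fin m → ℝ) i else 0,
    fun a j => if ha : (a : ℕ) < Module.finrank ℝ S then b.repr ⟨_, hmem j⟩ ⟨a, ha⟩ else 0, ?_⟩
  intro i j
  have h1 : R i j = ∑ t, b.repr ⟨_, hmem j⟩ t * ((b t : S) : Fin m → ℝ) i := by
    have h2 := b.sum_repr ⟨_, hmem j⟩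
    have h3 := congrArg (fun x : S => (x : Fin m → ℝ) i) h2
    simp only [Submodule.coe_sum, Submodule.coe_smul, Finset.sum_apply, Pi.smul_apply, smul_eq_mul] at h3
    exact h3.symm
  rw [h1]
  have h4 : ∀ a : Fin k, ((if ha : (a : ℕ) < Module.finrank ℝ S then ((b ⟨a, ha⟩ : S) : Fin m → ℝ) i else 0) *
      if ha : (a : ℕ) < Module.finrank ℝ S then b.repr ⟨_, hmem j⟩ ⟨a, ha⟩ else 0) =
      if ha : (a : ℕ) < Module.finrank ℝ S then b.repr ⟨_, hmem j⟩ ⟨a, ha⟩ *
        ((b ⟨a, ha⟩ : S) : Fin m → ℝ) i else 0 := by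
    intro a
    split_ifs
    · ring
    · ring
  rw [sum_congr rfl fun a _ => h4 a]
  set F : ℕ → ℝ := fun a => if ha : a < Module.finrank ℝ S then b.repr ⟨_, hmem j⟩ ⟨a, ha⟩ *
        ((b ⟨a, ha⟩ : S) : Fin m → ℝ) i else 0 with hF
  have h5 : ∑ a : Fin k, F a = ∑ a ∈ range k, F a := Fin.sum_univ_eq_sum_range F k
  have h6 : ∑ t : Fin (Module.finrank ℝ S), F t = ∑ a ∈ range (Module.finrank ℝ S), F a :=
    Fin.sum_univ_eq_sum_range F _
  have h7 : ∑ t, b.repr ⟨_, hmem j⟩ t * ((b t : S) : Fin m → ℝ) i = ∑ t : Fin (Module.finrank ℝ S), F t := by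
    refine sum_congr rfl fun t _ => ?_
    simp only [hF]
    rw [dif_pos t.isLt]
  rw [h7, h6]
  change _ = ∑ a : Fin k, F a
  rw [h5]
  refine sum_subset (range_mono hle) fun a _ ha => ?_
  simp only [hF]
  rw [dif_neg (by simpa using ha)]

/-- the factors with a partial injective labelling -/
theorem enum_lab {r : ℕ} {α : Type} (φ : Fin r → Option (Fin k))
    (hφ : ∀ i i' a, φ i = some a → φ i' = some a → i = i') (g : Fin r → α) (F : Fin k → α → ℝ) :
    ∃ ψ : Fin k → Option α, ∏ i, (φ i).elim 1 (fun a => F a (g i)) = ∏ a, (ψ a).elim 1 (F a) := by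
  classical
  refine ⟨fun a => if h : ∃ i, φ i = some a then some (g h.choose) else none, ?_⟩
  have h1 : ∀ i, (φ i).elim 1 (fun a => F a (g i)) = ∏ a, if φ i = some a then F a (g i) else 1 := by
    intro i
    rcases hi : φ i with _ | b
    · simp
    · rw [prod_eq_single b]
      · simp
      · intro a _ hab
        rw [if_neg]
        intro h
        exact hab (Option.some_injective _ h).symm
      · intro h
        exact absurd (mem_univ _) h
  rw [prod_congr rfl fun i _ => h1 i, prod_comm]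
  refine prod_congr rfl fun a _ => ?_
  beta_reduce
  by_cases h : ∃ i, φ i = some a
  · rw [dif_pos h, prod_eq_single h.choose]
    · rw [if_pos h.choose_spec]
      rfl
    · intro i _ hi
      rw [if_neg]
      intro h2
      exact hi (hφ i _ a h2 h.choose_spec)
    · intro h2
      exact absurd (mem_univ _) h2
  · rw [dif_neg h]
    refine prod_eq_one fun i _ => ?_
    rw [if_neg]
    intro h2
    exact h ⟨i, h2⟩

end Pool.Agent.Y496.CW
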