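import Mathlib

/-!
# Integer combinations of few reals (jobs W8, W9 of helper648)
-/

set_option autoImplicit false

namespace Pool.Agent.Y496.CW

open Finset

variable {I : Type} [Fintype I]

/-- `v` is a combination of the numbers `W` with integer coefficients at most `b`. -/
def LC (W : I → ℝ) (b : ℤ) (v : ℝ) : Prop :=
  ∃ y : I → ℤ, (∀ l, |y l| ≤ b) ∧ v = ∑ l, y l * W l

theorem LC.mono {W : I → ℝ} {b b' : ℤ} {v : ℝ} (h : LC W b v) (hb : b ≤ b') : LC W b' v := by
  obtain ⟨y, hy, e⟩ := h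
  exact ⟨y, fun l => (hy l).trans hb, e⟩

theorem LC.zero (W : I → ℝ) {b : ℤ} (hb : 0 ≤ b) : LC W b 0 :=
  ⟨0, fun _ => by simpa using hb, by simp⟩

theorem LC.add {W : I → ℝ} {b b' : ℤ} {v v' : ℝ} (h : LC W b v) (h' : LC W b' v') :
    LC W (b + b') (v + v') := by
  obtain ⟨y, hy, e⟩ := h
  obtain ⟨y', hy', e'⟩ := h'
  refine ⟨fun l => y l + y' l, fun l => (abs_add_le _ _).trans (add_le_add (hy l) (hy' l)), ?_⟩
  rw [e, e', ← sum_add_distrib]
  refine sum_congr rfl fun l _ => ?_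
  push_cast
  ring

theorem LC.sum {κ : Type} {W : I → ℝ} {b : ℤ} (T : Finset κ) {v : κ → ℝ}
    (h : ∀ t ∈ T, LC W b (v t)) : LC W (T.card * b) (∑ t ∈ T, v t) := by
  classical
  induction T using Finset.induction_on with
  | empty => simpa using LC.zero W le_rfl
  | insert t T ht ih =>
    rw [sum_insert ht, card_insert_of_notMem ht]
    have h1 := (h t (mem_insert_self _ _)).add (ih fun t' ht' => h t' (mem_insert_of_mem ht'))
    refine h1.mono (le_of_eq ?_)
    push_cast
    ring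

theorem LC.unit {W : I → ℝ} {b : ℤ} {v : ℝ} (u : ℤˣ) (h : LC W b v) :
    LC W b (((u : ℤ) : ℝ) * v) := by
  obtain ⟨y, hy, e⟩ := h
  refine ⟨fun l => u * y l, fun l => ?_, ?_⟩
  · rcases Int.units_eq_one_or u with rfl | rfl
    · simpa using hy l
    · simpa using hy l
  · rw [e, mul_sum]
    refine sum_congr rfl fun l _ => ?_
    push_cast
    ring

theorem LC.prod {Ψ L : Type} [Fintype Ψ] [Fintype L] {w : L → ℝ} (E : Ψ → ℝ) (ψ : Ψ) {b : ℤ}
    {v : ℝ} (hb : 0 ≤ b) (h : LC w b v) :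
    LC (fun p : Ψ × L => E p.1 * w p.2) b (E ψ * v) := by
  classical
  obtain ⟨y, hy, e⟩ := h
  refine ⟨fun p => if p.1 = ψ then y p.2 else 0, fun p => ?_, ?_⟩
  · show |(if p.1 = ψ then y p.2 else 0)| ≤ b
    split_ifs
    · exact hy _
    · simpa using hb
  · rw [e, Fintype.sum_prod_type, sum_eq_single ψ]
    · rw [mul_sum]
      refine sum_congr rfl fun l _ => ?_
      simp only [if_true]
      ring
    · intro ψ' _ h'
      refine sum_eq_zero fun l _ => ?_
      simp [h']
    · intro h'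
      exact absurd (mem_univ _) h'

theorem LC.fin {W : I → ℝ} {N : ℕ} (hN : Fintype.card I ≤ N) :
    ∃ w : Fin N → ℝ, ∀ (b : ℤ) (v : ℝ), 0 ≤ b → LC W b v → LC w b v := by
  classical
  obtain ⟨ι⟩ : Nonempty (I ↪ Fin N) :=
    Function.Embedding.nonempty_of_card_le (by simpa using hN)
  refine ⟨Function.extend ι W 0, fun b v hb h => ?_⟩
  obtain ⟨y, hy, e⟩ := h
  refine ⟨Function.extend ι y 0, fun l => ?_, ?_⟩
  · by_cases h : ∃ i, ι i = l
    · obtain ⟨i, rfl⟩ := h
      rw [ι.injective.extend_apply]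
      exact hy i
    · rw [Function.extend_apply' _ _ _ h]
      simpa using hb
  · have h1 : ∑ l, ((Function.extend ι y 0 l : ℤ) : ℝ) * Function.extend ι W 0 l =
        ∑ l ∈ univ.map ι, ((Function.extend ι y 0 l : ℤ) : ℝ) * Function.extend ι W 0 l := by
      refine (sum_subset (subset_univ _) fun l _ hl => ?_).symm
      have h2 : ¬ ∃ i, ι i = l := by
        rintro ⟨i, rfl⟩
        exact hl (mem_map_of_mem _ (mem_univ _))
      rw [Function.extend_apply' _ _ _ h2]
      simp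
    rw [h1, sum_map, e]
    refine sum_congr rfl fun i _ => ?_
    rw [ι.injective.extend_apply, ι.injective.extend_apply]

theorem fact_le (r x : ℕ) (h : r ≤ x) : r.factorial ≤ 2 ^ (x ^ 2) := by
  calc r.factorial ≤ r ^ r := Nat.factorial_le_pow r
    _ ≤ (2 ^ r) ^ r := Nat.pow_le_pow_left (Nat.lt_two_pow_self).le r
    _ = 2 ^ (r * r) := by rw [pow_mul]
    _ ≤ 2 ^ (x ^ 2) := by
      refine Nat.pow_le_pow_right (by norm_num) ?_
      rw [pow_two]
      exact Nat.mul_le_mul h h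

/-- the factors with index in a small set -/
theorem enum_prod {ι α : Type} (K : ℕ) : ∀ (T : Finset ι) (_ : T.card ≤ K) (g : ι → α) (F : α → ℝ),
    ∃ ψ : Fin K → Option α, ∏ i ∈ T, F (g i) = ∏ a, (ψ a).elim 1 F := by
  classical
  induction K with
  | zero =>
    intro T hT g F
    have : T = ∅ := Finset.card_eq_zero.1 (Nat.le_zero.1 hT)
    subst this
    exact ⟨fun a => none, by simp⟩
  | succ K ih =>
    intro T hT g F
    rcases T.eq_empty_or_nonempty with rfl | ⟨i, hi⟩
    · exact ⟨fun a => none, by simp⟩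
    · obtain ⟨ψ, hψ⟩ := ih (T.erase i) (by rw [card_erase_of_mem hi]; omega) g F
      refine ⟨Fin.cons (some (g i)) ψ, ?_⟩
      rw [Fin.prod_univ_succ, ← mul_prod_erase T _ hi, hψ]
      simp

end Pool.Agent.Y496.CW
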